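import Pool.Agent.Helper78.Ep.Goals
import Pool.Agent.Helper32.Tok.LSOP

/-!
# Itinerary machines: the operations on digits are computed in linear space
-/

namespace Pool.Agent.Helper32.Ep

open Pool.Agent.Helper65.LinSpace Pool.Agent.Helper78.Ep Finset
open Pool.Agent.Helper78.Tok (fhG rgn)
open Pool.Agent.Helper32.Tok (sum_two_pow_lt ls_rgn ls_fhG)

variable {α β : Type} [Ctx α] [Ctx β]

theorem lsm_comp {m : α → Mach} {C : α → ℕ} (h : LSM m C) {f : β → α} (hf : LS f) :
    LSM (fun z => m (f z)) (fun z => C (f z)) where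
  σ := LS.comp (g := fun z => (m z).σ) h.σ hf
  a := LS.comp (g := fun z => (m z).a) h.a hf
  b := LS.comp (g := fun z => (m z).b) h.b hf
  G := LS.comp (g := fun z => (m z).G) h.G hf
  E := LS.comp (g := fun z => (m z).E) h.E hf
  lam := LS.comp (g := fun z => (m z).lam) h.lam hf
  F := LS.comp (g := fun z : α × ℕ × ℕ × ℕ => (m z.1).F z.2.1 z.2.2.1 z.2.2.2)
    (f := fun z : β × ℕ × ℕ × ℕ => (f z.1, z.2)) h.F (by fun_prop)
  H := LS.comp (g := fun z : α × ℕ × ℕ => (m z.1).H z.2.1 z.2.2)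
    (f := fun z : β × ℕ × ℕ => (f z.1, z.2)) h.H (by fun_prop)
  q0 := LS.comp (g := fun z => (m z).q0) h.q0 hf
  M0 := LS.comp (g := fun z : α × ℕ => (m z.1).M0 z.2) (f := fun z : β × ℕ => (f z.1, z.2)) h.M0
    (by fun_prop)
  bd := LS.comp (g := C) h.bd hf
  ok z := h.ok (f z)
  hC z := h.hC (f z)
  hC' z := h.hC' (f z)

section

variable {m : α → Mach} {C p l j S x k : α → ℕ}

theorem pow_le_C (h : LSM m C) (z : α) {n : ℕ}
    (hn : n ≤ (m z).G * (m z).wn + ((m z).E + 1) * (m z).wc) : 2 ^ n ≤ C z :=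
  (Nat.pow_le_pow_right (by norm_num) hn).trans (h.hC z)

theorem σ_le (m : Mach) : m.σ ≤ m.G * m.wn + (m.E + 1) * m.wc := by
  have h1 : m.σ ≤ m.wc := by
    unfold Mach.wc
    omega
  have h2 : 1 * m.wc ≤ (m.E + 1) * m.wc := Nat.mul_le_mul_right _ (by omega)
  omega

theorem ls_pow (h : LSM m C) : LS (fun z => 2 ^ (m z).σ) :=
  LS.pow_of_le (f := fun _ => 2) (LS.const 2) h.σ h.bd fun z => pow_le_C h z (σ_le _)

theorem lam_le_C (h : LSM m C) (z : α) {n : ℕ} (hn : n ≤ (m z).lam) : 2 ^ n ≤ C z := by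
  refine (Nat.pow_le_pow_right (by norm_num) ?_).trans (h.hC' z)
  have h1 : (m z).lam * 1 ≤ (m z).lam * (m z).E := Nat.mul_le_mul_left _ (h.ok z).hE
  omega

theorem ls_powL (h : LSM m C) : LS (fun z => 2 ^ (m z).lam) :=
  LS.pow_of_le (f := fun _ => 2) (LS.const 2) h.lam h.bd fun z => lam_le_C h z le_rfl

theorem ls_wn (h : LSM m C) : LS (fun z => (m z).wn) := by
  have h1 := h.σ
  have h2 := h.b
  unfold Mach.wn
  fun_prop

theorem ls_wc (h : LSM m C) : LS (fun z => (m z).wc) := by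
  have h1 := h.σ
  have h2 := h.a
  unfold Mach.wc
  fun_prop

theorem ls_nE (h : LSM m C) (hp : LS p) : LS (fun z => (m z).nE (p z)) := by
  have h1 := h.E
  unfold Mach.nE
  fun_prop

theorem ls_src (h : LSM m C) {i : α → ℕ} (hi : LS i) : LS (fun z => (m z).src (i z)) := by
  have h1 := h.E
  have h2 := h.G
  unfold Mach.src
  fun_prop

theorem ls_loN (h : LSM m C) {i : α → ℕ} (hi : LS i) : LS (fun z => (m z).loN (i z)) := by
  have h1 := h.G
  have h2 := ls_wn h
  have h3 := ls_wc h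
  unfold Mach.loN
  fun_prop

theorem ls_lnN (h : LSM m C) {i : α → ℕ} (hi : LS i) : LS (fun z => (m z).lnN (i z)) := by
  have h1 := h.G
  have h2 := ls_wn h
  have h3 := ls_wc h
  unfold Mach.lnN
  fun_prop

theorem ls_varN (h : LSM m C) {i j s : α → ℕ} {X : α → ℕ → ℕ} (hi : LS i) (hj : LS j) (hs : LS s)
    (hX : LS (fun z : α × ℕ => X z.1 z.2)) :
    LS (fun z => (m z).varN (i z) (fun j => X z (5 * j)) (fun o => X z (5 * (s z + o))) (j z)) := by
  have h1 := ls_wn h
  have e1 : LS (fun z => X z (5 * (s z + (j z - i z * (m z).wn)))) :=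
    LS.comp (g := fun z : α × ℕ => X z.1 z.2)
      (f := fun z => (z, 5 * (s z + (j z - i z * (m z).wn)))) hX (by fun_prop)
  have e2 : LS (fun z => X z (5 * j z)) :=
    LS.comp (g := fun z : α × ℕ => X z.1 z.2) (f := fun z => (z, 5 * j z)) hX (by fun_prop)
  unfold Mach.varN
  fun_prop

/-- The extension of `F`. -/
theorem ls_fF (h : LSM m C) (hp : LS p) (hp0 : ∀ z, 0 < p z) {i q π : α → ℕ} (hi : LS i)
    (hπ : LS π) (hq : LS q) (hS : LS S) :
    LS (fun z => fhG (p z) (min (i z) (m z).G * (m z).wn + (m z).E * (m z).wc)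
      ((m z).F (i z) (π z)) (q z)
      ((m z).varN (i z) (fun j => dig (p z) (S z) (5 * j))
        fun u => dig (p z) (S z) (5 * ((m z).G * (m z).wn + u)))) := by
  have hm' : LSM (fun z : α × ℕ => m z.1) (fun z => C z.1) := lsm_comp h LS.fst
  have hG := h.G
  have hE := h.E
  have hwn := ls_wn h
  have hwc := ls_wc h
  have hG' := hm'.G
  have hwn' := ls_wn hm'
  refine ls_fhG (N := fun z => min (i z) (m z).G * (m z).wn + (m z).E * (m z).wc)
    (F := fun z => (m z).F (i z) (π z))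
    (X := fun z => (m z).varN (i z) (fun j => dig (p z) (S z) (5 * j))
        fun u => dig (p z) (S z) (5 * ((m z).G * (m z).wn + u))) hp hp0 (by fun_prop) hq h.bd
    (fun z => pow_le_C h z ?_) ?_ ?_
  · refine Nat.add_le_add (Nat.mul_le_mul_right _ (min_le_right _ _))
      (Nat.mul_le_mul_right _ (Nat.le_succ _))
  · exact LS.comp (g := fun z : α × ℕ × ℕ × ℕ => (m z.1).F z.2.1 z.2.2.1 z.2.2.2)
      (f := fun z : α × ℕ => (z.1, i z.1, π z.1, z.2)) h.F (by fun_prop)
  · exact ls_varN hm' (i := fun z : α × ℕ => i z.1) (j := fun z => z.2)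
      (s := fun z => (m z.1).G * (m z.1).wn) (X := fun z => dig (p z.1) (S z.1)) (by fun_prop)
      (by fun_prop) (by fun_prop) (by fun_prop)

/-- The extension of `H`. -/
theorem ls_fH (h : LSM m C) (hp : LS p) (hp0 : ∀ z, 0 < p z) {u q s : α → ℕ} (hu : LS u)
    (hq : LS q) (hs : LS s) (hS : LS S) :
    LS (fun z => fhG (p z) ((m z).G * (m z).wn + (m z).wc) ((m z).H (u z)) (q z)
      ((m z).varN (m z).G (fun j => dig (p z) (S z) (5 * j))
        fun o => dig (p z) (S z) (5 * (s z + o)))) := by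
  have hm' : LSM (fun z : α × ℕ => m z.1) (fun z => C z.1) := lsm_comp h LS.fst
  have hG := h.G
  have hE := h.E
  have hwn := ls_wn h
  have hwc := ls_wc h
  have hG' := hm'.G
  have hwn' := ls_wn hm'
  refine ls_fhG (N := fun z => (m z).G * (m z).wn + (m z).wc)
    (F := fun z => (m z).H (u z))
    (X := fun z => (m z).varN (m z).G (fun j => dig (p z) (S z) (5 * j))
        fun o => dig (p z) (S z) (5 * (s z + o))) hp hp0 (by fun_prop) hq h.bd
    (fun z => pow_le_C h z ?_) ?_ ?_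
  · have h2 : 1 * (m z).wc ≤ ((m z).E + 1) * (m z).wc := Nat.mul_le_mul_right _ (by omega)
    omega
  · exact LS.comp (g := fun z : α × ℕ × ℕ => (m z.1).H z.2.1 z.2.2)
      (f := fun z : α × ℕ => (z.1, u z.1, z.2)) h.H (by fun_prop)
  · exact ls_varN hm' (i := fun z : α × ℕ => (m z.1).G) (j := fun z => z.2)
      (s := fun z => s z.1) (X := fun z => dig (p z.1) (S z.1)) hG'
      (by fun_prop) (by fun_prop) (by fun_prop)

theorem ls_qN {t : α → ℕ} (h : LSM m C) (hp : LS p) (hp0 : ∀ z, 0 < p z)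
    (hS : LS S) (ht : LS t) : LS (fun z => (m z).qN (dig (p z) (S z)) (t z)) := by
  have hl := h.lam
  have hl' : LS (fun z : α × ℕ => (m z.1).lam) := (lsm_comp h LS.fst).lam
  have h1 : LS (fun z => ∑ o ∈ range (m z).lam,
      dig (p z) (S z) (5 * (t z * (m z).lam + o) + 4) * capPow 2 o (C z)) := by
    refine LS.sum (f := fun z o => dig (p z) (S z) (5 * (t z * (m z).lam + o) + 4) *
      capPow 2 o (C z)) (C := fun z => p z * C z) ?_ hl (LS.mul hp h.bd) ?_
    · have hC := h.bd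
      fun_prop
    · intro z
      have h2 : ∑ o ∈ range (m z).lam, dig (p z) (S z) (5 * (t z * (m z).lam + o) + 4) *
          capPow 2 o (C z) ≤ ∑ o ∈ range (m z).lam, p z * 2 ^ o := by
        refine sum_le_sum fun o _ => Nat.mul_le_mul (Nat.mod_lt _ (hp0 z)).le (min_le_left _ _)
      refine h2.trans ?_
      rw [← mul_sum]
      exact Nat.mul_le_mul_left _ ((sum_two_pow_lt _).le.trans (lam_le_C h z le_rfl))
  refine LS.congr h1 fun z => ?_
  unfold Mach.qN tab
  refine sum_congr rfl fun i hi => ?_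
  have hi' := mem_range.1 hi
  have h3 : 2 ^ i ≤ C z := lam_le_C h z hi'.le
  rw [capPow, min_eq_left (by omega)]

theorem ls_isY (h : LSM m C) (hp : LS p) (hl : LS l) (hS : LS S) :
    LS (fun z => (m z).isY (dig (p z) (S z)) (l z)) := by
  have hG := h.G
  unfold Mach.isY
  fun_prop

theorem ls_isZ (h : LSM m C) (hp : LS p) (hl : LS l) (hj : LS j) (hS : LS S) :
    LS (fun z => (m z).isZ (p z) (dig (p z) (S z)) (l z) (j z)) := by
  have hG := h.G
  have hE := h.E
  unfold Mach.isZ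
  fun_prop

theorem ls_isN (h : LSM m C) (hp : LS p) (hl : LS l) (hS : LS S) :
    LS (fun z => (m z).isN (dig (p z) (S z)) (l z)) := by
  have hG := h.G
  have hE := h.E
  unfold Mach.isN
  fun_prop

theorem ls_isP (h : LSM m C) (hp : LS p) (hl : LS l) (hj : LS j) (hS : LS S) :
    LS (fun z => (m z).isP (dig (p z) (S z)) (l z) (j z)) := by
  have hG := h.G
  have hE := h.E
  unfold Mach.isP
  fun_prop

theorem ls_yR {i π c e sg : α → ℕ} (h : LSM m C) (hp : LS p) (hp0 : ∀ z, 0 < p z)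
    (hi : LS i) (hπ : LS π) (hc : LS c) (he : LS e) (hsg : LS sg) (hS : LS S) (hx : LS x) :
    LS (fun z => (m z).yR (p z) (i z) (π z) (c z) (e z) (sg z) (dig (p z) (S z)) (x z)) := by
  have hG := h.G
  have hE := h.E
  have h3 := ls_wc h
  have h4 := ls_wn h
  have h5 : LS (fun z => rgn ((m z).G * (m z).wn) ((m z).E * (m z).wc) (x z)) :=
    ls_rgn (by fun_prop) (by fun_prop) hx
  have hlo := ls_loN h hi
  have hln := ls_lnN h hi
  have h6 : LS (fun z => rgn ((m z).loN (i z)) ((m z).lnN (i z)) (x z)) := ls_rgn hlo hln hx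
  have h7 : LS (fun z => invN (p z) (c z)) := LS.invN hp hc hp0
  have h8 := ls_fF h hp hp0 (q := fun z => x z - (m z).loN (i z)) hi hπ (by fun_prop) hS
  unfold Mach.yR
  fun_prop

theorem ls_zR {i u e sg : α → ℕ} (h : LSM m C) (hp : LS p) (hp0 : ∀ z, 0 < p z) (hi : LS i)
    (hu : LS u) (he : LS e) (hsg : LS sg) (hS : LS S) (hx : LS x) :
    LS (fun z => (m z).zR (p z) (i z) (u z) (e z) (sg z) (dig (p z) (S z)) (x z)) := by
  have hG := h.G
  have hE := h.E
  have h3 := ls_wc h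
  have h4 := ls_wn h
  have hs := ls_src h hi
  have h5 : LS (fun z => rgn ((m z).G * (m z).wn + (m z).src (i z) * (m z).wc) (m z).wc (x z)) :=
    ls_rgn (by fun_prop) (by fun_prop) hx
  have hlo := ls_loN h hi
  have hln := ls_lnN h hi
  have h6 : LS (fun z => rgn ((m z).loN (i z)) ((m z).lnN (i z)) (x z)) := ls_rgn hlo hln hx
  have h7 : LS (fun z => invN (p z) (e z / 3 + 1)) := LS.invN hp (by fun_prop) hp0
  have h8 := ls_fH h hp hp0 (q := fun z => x z - (m z).loN (i z))
    (s := fun z => (m z).G * (m z).wn + (m z).src (i z) * (m z).wc) hu (by fun_prop)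
    (by fun_prop) hS
  unfold Mach.zR
  fun_prop

theorem ls_nR (h : LSM m C) (hp : LS p) (hp0 : ∀ z, 0 < p z) (hl : LS l) (hj : LS j) (hS : LS S)
    (hx : LS x) : LS (fun z => (m z).nR (p z) (l z) (j z) (dig (p z) (S z)) (x z)) := by
  have hY := ls_isY h hp hl hS
  have hZ := ls_isZ h hp hl hj hS
  have hN := ls_isN h hp hl hS
  have hG := h.G
  have hE := h.E
  have hw := ls_wn h
  have hnE := ls_nE h hp
  have hq : LS (fun z => (m z).qN (dig (p z) (S z)) (l z / ((m z).G + 2) + 1)) :=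
    ls_qN h hp hp0 hS (by fun_prop)
  have hi : LS (fun z => invN (p z) (j z / (2 * (m z).G + 3) + 1)) :=
    LS.invN hp (by fun_prop) hp0
  have hz : LS (fun z => (m z).zR (p z) (dig (p z) (S z) (5 * (l z + 1) + 2))
      ((m z).qN (dig (p z) (S z)) (l z / ((m z).G + 2) + 1)) (j z)
      (dig (p z) (S z) (5 * (l z + 1) + 3)) (dig (p z) (S z)) (x z)) :=
    ls_zR h hp hp0 (by fun_prop) hq hj (by fun_prop) hS hx
  have hy : LS (fun z => (m z).yR (p z) (dig (p z) (S z) (5 * (l z + 1) + 2))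
      (j z / (m z).nE (p z)) (j z % (m z).nE (p z) / (2 * (m z).E + 3) + 1)
      (j z % (2 * (m z).E + 3)) (dig (p z) (S z) (5 * (l z + 1) + 3))
      (dig (p z) (S z)) (x z)) :=
    ls_yR h hp hp0 (by fun_prop) (by fun_prop) (by fun_prop) (by fun_prop) (by fun_prop)
      hS hx
  unfold Mach.nR
  fun_prop

theorem ls_cMd (h : LSM m C) (hp : LS p) (hl : LS l) (hj : LS j) (hS : LS S) :
    LS (fun z => (m z).cMd (p z) (l z) (j z) (dig (p z) (S z))) := by
  have hY := ls_isY h hp hl hS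
  have hZ := ls_isZ h hp hl hj hS
  have hN := ls_isN h hp hl hS
  have hP := ls_isP h hp hl hj hS
  have hG := h.G
  have hE := h.E
  unfold Mach.cMd
  fun_prop

theorem ls_cNd (h : LSM m C) (hp : LS p) (hl : LS l) (hj : LS j) (hS : LS S) :
    LS (fun z => (m z).cNd (p z) (l z) (j z) (dig (p z) (S z))) := by
  have hY := ls_isY h hp hl hS
  have hZ := ls_isZ h hp hl hj hS
  have hN := ls_isN h hp hl hS
  have hP := ls_isP h hp hl hj hS
  have hG := h.G
  have hE := h.E
  have hs : LS (fun z => (m z).src (dig (p z) (S z) (5 * (l z + 1) + 2))) :=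
    ls_src h (by fun_prop)
  unfold Mach.cNd
  fun_prop

theorem ls_cSg (h : LSM m C) (hp : LS p) (hl : LS l) (hj : LS j) (hS : LS S) :
    LS (fun z => (m z).cSg (p z) (l z) (j z) (dig (p z) (S z))) := by
  have hY := ls_isY h hp hl hS
  have hZ := ls_isZ h hp hl hj hS
  have hN := ls_isN h hp hl hS
  have hP := ls_isP h hp hl hj hS
  have hG := h.G
  have hE := h.E
  unfold Mach.cSg
  fun_prop

theorem ls_nQ (h : LSM m C) (hp : LS p) (hl : LS l) (hj : LS j) (hS : LS S)
    (hx : LS x) : LS (fun z => (m z).nQ (p z) (l z) (j z) (dig (p z) (S z)) (x z)) := by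
  have hY := ls_isY h hp hl hS
  have hZ := ls_isZ h hp hl hj hS
  have hG := h.G
  have hE := h.E
  have hlam := h.lam
  have hnE := ls_nE h hp
  have hpw := ls_powL h
  unfold Mach.nQ
  fun_prop

theorem ls_opA (h : LSM m C) (hp : LS p) (hp0 : ∀ z, 0 < p z) (hl : LS l) (hj : LS j) (hS : LS S)
    (hx : LS x) : LS (fun z => (m z).opA (p z) (l z) (j z) (dig (p z) (S z)) (x z)) := by
  have h1 := ls_nR h hp hp0 hl hj hS (x := fun z => x z / 5) (by fun_prop)
  have h2 := ls_nQ h hp hl hj hS (x := fun z => x z / 5) (by fun_prop)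
  have h5 := ls_cMd h hp hl hj hS
  have h6 := ls_cNd h hp hl hj hS
  have h7 := ls_cSg h hp hl hj hS
  unfold Mach.opA
  fun_prop

theorem ls_baseA (h : LSM m C) (hp : LS p) (hp0 : ∀ z, 0 < p z) (hS : LS S)
    (hx : LS x) : LS (fun z => (m z).baseA (p z) (dig (p z) (S z)) (x z)) := by
  have hG := h.G
  have hE := h.E
  have hq0 := h.q0
  have hpw := ls_pow h
  have hlo : LS (fun z => (m z).loN (dig (p z) (S z) 2)) := ls_loN h (by fun_prop)
  have hwc := ls_wc h
  have hr : LS (fun z => rgn ((m z).loN (dig (p z) (S z) 2)) (m z).wc (x z / 5)) :=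
    ls_rgn hlo hwc (by fun_prop)
  have hq : LS (fun z => (m z).qN (dig (p z) (S z)) 0) :=
    ls_qN h hp hp0 hS (t := fun _ => 0) (LS.const 0)
  have hM : LS (fun z => (m z).M0 ((m z).qN (dig (p z) (S z)) 0)) :=
    LS.comp (g := fun z : α × ℕ => (m z.1).M0 z.2)
      (f := fun z : α => (z, (m z).qN (dig (p z) (S z)) 0)) h.M0 (by fun_prop)
  unfold Mach.baseA
  fun_prop

end

theorem LSOP : LSOP_stmt := by
  intro α _ m C p h hp hp0
  constructor
  · exact ls_opA (α := α × ℕ × ℕ × ℕ × ℕ) (m := fun z => m z.1) (C := fun z => C z.1)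
      (p := fun z => p z.1) (l := fun z => z.2.1) (j := fun z => z.2.2.1)
      (S := fun z => z.2.2.2.1) (x := fun z => z.2.2.2.2) (lsm_comp h LS.fst)
      (by fun_prop) (fun z => hp0 z.1) (by fun_prop) (by fun_prop) (by fun_prop) (by fun_prop)
  · exact ls_baseA (α := α × ℕ × ℕ) (m := fun z => m z.1) (C := fun z => C z.1)
      (p := fun z => p z.1) (S := fun z => z.2.1) (x := fun z => z.2.2)
      (lsm_comp h LS.fst) (by fun_prop) (fun z => hp0 z.1) (by fun_prop) (by fun_prop)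

end Pool.Agent.Helper32.Ep
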