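import Pool.Agent.Helper78.Ep.Goals
import Pool.Agent.Helper65.LinSpace.Block

/-!
# Itinerary machines: at the true values the polynomials give the true values
-/

namespace Pool.Agent.Helper32.Ep

open Pool.Agent.Helper65.LinSpace Pool.Agent.Helper78.Ep Finset

variable {m : Pool.Agent.Helper78.Ep.Mach}

theorem tn_lt (hm : m.Ok) (k x : ℕ) : m.tn k x < 2 ^ m.wc := by
  have h1 := hm.hev (k * (m.G * m.b))
  have h2 : 2 ^ m.σ * (m.ct k x + 1) ≤ 2 ^ m.σ * 2 ^ m.a :=
    Nat.mul_le_mul_left _ (hm.hct k x)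
  unfold Mach.tn Mach.wc
  rw [pow_add]
  rw [Nat.mul_add] at h2
  omega

theorem wc_pos (hm : m.Ok) : 0 < m.wc := by
  have := hm.hσ
  unfold Mach.wc
  omega

/-- The number which codes the events of the intervals before `i`, followed by `D`. -/
def zz (m : Pool.Agent.Helper78.Ep.Mach) (k i D : ℕ) : ℕ := m.te k (i * m.b) + 2 ^ (i * m.wn) * D

theorem pow_wn (m : Pool.Agent.Helper78.Ep.Mach) (i : ℕ) :
    2 ^ (i * m.wn) = (2 ^ m.σ) ^ (i * m.b) := by
  rw [← pow_mul]
  congr 1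
  unfold Mach.wn
  ring

theorem te_lt (hm : m.Ok) (k i : ℕ) : m.te k (i * m.b) < 2 ^ (i * m.wn) := by
  rw [pow_wn]
  exact tab_lt fun t _ => hm.hev _

theorem zz_lt (hm : m.Ok) (k i : ℕ) {D n : ℕ} (hD : D < 2 ^ n) :
    zz m k i D < 2 ^ (i * m.wn + n) := by
  have h1 := te_lt hm k i
  have h2 : 2 ^ (i * m.wn) * (D + 1) ≤ 2 ^ (i * m.wn) * 2 ^ n := Nat.mul_le_mul_left _ hD
  unfold zz
  rw [pow_add]
  rw [Nat.mul_add] at h2
  omega

theorem zz_mod (hm : m.Ok) (k i D : ℕ) : zz m k i D % 2 ^ (i * m.wn) = m.te k (i * m.b) := by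
  unfold zz
  rw [Nat.add_mul_mod_self_left, Nat.mod_eq_of_lt (te_lt hm k i)]

theorem zz_div (hm : m.Ok) (k i D : ℕ) : zz m k i D / 2 ^ (i * m.wn) = D := by
  unfold zz
  rw [Nat.add_mul_div_left _ _ (by positivity), Nat.div_eq_of_lt (te_lt hm k i), zero_add]

/-- The bits of the number are the true values. -/
theorem zz_bits (hm : m.Ok) (p : ℕ) (k u D : ℕ) {i n : ℕ} (hi : i ≤ m.G) (Y : ℕ → ZMod p)
    (hY : ∀ o < n, Y o = bitZ p D o) (j : ℕ) (hjn : j < i * m.wn + n) :
    m.vars p i (fun j => m.V p k (j / m.wn) u (j % m.wn)) Y j = bitZ p (zz m k i D) j := by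
  have hσ := hm.hσ
  have hb := hm.hb
  have hwn : 0 < m.wn := Nat.mul_pos hσ hb
  unfold Mach.vars
  by_cases hj : j < i * m.wn
  · rw [if_pos hj]
    have h1 : j / m.wn < i := (Nat.div_lt_iff_lt_mul hwn).2 hj
    have h2 : j / m.wn < m.G := lt_of_lt_of_le h1 hi
    unfold Mach.V Mach.vn bitZ
    simp only
    rw [if_pos h2]
    congr 1
    -- left hand side
    have h3 : j % m.wn / m.σ < m.b := by
      rw [Nat.div_lt_iff_lt_mul hσ, mul_comm]
      exact Nat.mod_lt _ hwn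
    have h4 : j % m.wn % m.σ < m.σ := Nat.mod_lt _ hσ
    have h5 : j % m.wn = j % m.wn / m.σ * m.σ + j % m.wn % m.σ := (Nat.div_add_mod' _ _).symm
    have h6 : j % m.wn % m.σ = j % m.σ := by
      unfold Mach.wn
      exact Nat.mod_mul_right_mod j m.σ m.b
    have h7 : k * (m.G * m.b) + j / m.wn * m.b + j % m.wn / m.σ + 1 =
        k * (m.G * m.b) + j / m.σ + 1 := by
      have h8 : j / m.wn * m.b + j % m.wn / m.σ = j / m.σ := by
        unfold Mach.wn
        rw [Nat.mod_mul_right_div_self, ← Nat.div_div_eq_div_mul, Nat.div_add_mod']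
      omega
    have hL : dig 2 (tab (2 ^ m.σ) m.b fun r =>
        m.ev (k * (m.G * m.b) + j / m.wn * m.b + r + 1)) (j % m.wn) =
        dig 2 (m.ev (k * (m.G * m.b) + j / m.σ + 1)) (j % m.σ) := by
      rw [h5, dig_tab_block (by norm_num) (fun r _ => hm.hev _) h3 h4, h6, h7]
    rw [hL]
    -- right hand side
    have h9 : j / m.σ < i * m.b := by
      rw [Nat.div_lt_iff_lt_mul hσ]
      refine lt_of_lt_of_eq hj ?_
      unfold Mach.wn
      ring
    rw [← dig_mod_pow _ _ hj, zz_mod hm]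
    have h10 : j = j / m.σ * m.σ + j % m.σ := (Nat.div_add_mod' _ _).symm
    conv_rhs => rw [h10]
    unfold Mach.te
    rw [dig_tab_block (by norm_num) (fun r _ => hm.hev _) h9 (Nat.mod_lt _ hσ)]
  · rw [if_neg hj]
    push Not at hj
    obtain ⟨o, rfl⟩ := Nat.exists_eq_add_of_le hj
    rw [Nat.add_sub_cancel_left, hY o (by omega)]
    unfold bitZ
    congr 1
    conv_rhs => unfold dig
    rw [pow_add, ← Nat.div_div_eq_div_mul, zz_div hm]
    rfl

/-- The extension at the true values. -/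
theorem fhat_true (hm : m.Ok) (p : ℕ) (k u : ℕ) {D i n : ℕ} (hi : i ≤ m.G) (F : ℕ → ℕ) (q : ℕ)
    (Y : ℕ → ZMod p) (hD : D < 2 ^ n) (hY : ∀ o < n, Y o = bitZ p D o) :
    fhat p (i * m.wn + n) F q (m.vars p i (fun j => m.V p k (j / m.wn) u (j % m.wn)) Y) =
      bitZ p (F (zz m k i D)) q := by
  rw [← fhat_bits p (i * m.wn + n) F q (zz_lt hm k i hD)]
  exact fhat_congr p fun j hj => zz_bits hm p k u D hi Y hY j hj

theorem bitZ_zero (p o : ℕ) : bitZ p 0 o = 0 := by simp [bitZ, dig]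

/-- At the true values the polynomials give the true values. -/
theorem TRUTH : TRUTH_stmt := by
  intro m p _ hm k i u o hi
  unfold Mach.P
  by_cases hiG : i < m.G
  · rw [if_pos hiG]
    obtain ⟨π₀, hπ₀, hF⟩ := hm.hF k i hiG
    have h1 : ∀ π, fhat p (i * m.wn + m.E * m.wc) (m.F i π) o
        (m.vars p i (fun j => m.V p k (j / m.wn) u (j % m.wn)) (m.TE p k π)) =
        bitZ p (m.F i π (m.zF k i π)) o := by
      intro π
      have hD : tab (2 ^ m.wc) m.E (fun j => m.tn k (dig (2 ^ m.lam) π j)) <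
          2 ^ (m.E * m.wc) := by
        have h2 : 2 ^ (m.E * m.wc) = (2 ^ m.wc) ^ m.E := by
          rw [← pow_mul, Nat.mul_comm]
        rw [h2]
        exact tab_lt fun j _ => tn_lt hm k _
      refine fhat_true hm p k u hiG.le (m.F i π) o (m.TE p k π) hD ?_
      intro o' ho'
      unfold Mach.TE Mach.T bitZ
      congr 1
      have hwc := wc_pos hm
      have h3 : o' / m.wc < m.E := (Nat.div_lt_iff_lt_mul hwc).2 ho'
      conv_rhs => rw [show o' = o' / m.wc * m.wc + o' % m.wc from (Nat.div_add_mod' _ _).symm]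
      rw [dig_tab_block (by norm_num) (fun r _ => tn_lt hm k _) h3 (Nat.mod_lt _ hwc)]
    rw [Finset.sum_congr rfl fun π _ => h1 π, Finset.sum_eq_single π₀]
    · rw [hF π₀ hπ₀, if_pos rfl]
      unfold Mach.V Mach.vn
      rw [if_pos hiG]
    · intro π hπ hne
      rw [hF π (mem_range.1 hπ), if_neg hne, bitZ_zero]
    · intro h
      exact absurd (mem_range.2 hπ₀) h
  · rw [if_neg hiG, fhat_true hm p k u le_rfl (m.H u) o (m.T p k u) (tn_lt hm k u)
      (fun _ _ => rfl)]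
    unfold Mach.V Mach.vn
    rw [if_neg hiG]
    congr 1
    exact hm.hH k u

end Pool.Agent.Helper32.Ep
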